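import Pool.Agent.H540.TE.Pg

/-!
# Almost prime values of `m ^ 3 + k` at the differences of the elements of a set of `N ^ (1 - c)` integers

A theorem of the type of Furstenberg and Sárközy, with a power saving, for the almost prime values of `m ^ 3 + k`.
Let `k` be an integer which is not a cube and `δ > 0`. There is `c > 0` such that for large `N` in every set `A` of
integers in `[1, N]` with at least `N ^ (1 - c)` elements there are at least `N ^ (2 - δ)` pairs of elements `b < a`
for which `(a - b) ^ 3 + k` is `k` times (up to the sign) an integer with at most four prime factors, counted with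
multiplicity, all at least `N ^ (6 / 25)`. The factor `k` is necessary: all elements of `A` may be multiples of `k`.
Moreover the differences can be sieved: for the primes `p ≤ N ^ c` let `Y p` be any set of at most `h` nonzero
residue classes; the differences may be taken outside of all these classes (`c` depends on `k`, `δ` and `h`, but not on
the classes). For instance with the class of `-1` the numbers `a - b + 1` have a bounded number of prime factors. The
class of zero cannot be excluded, since all elements of `A` may be multiples of `p`.

For `A` the set of all integers up to `N` this is the theorem of Richert on the almost prime values of polynomials. For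
the differences `p - 1` and `p + 1`, `p` prime, such a power saving is a theorem of B. Green.

Method: the small primes (up to a small power of `N`) are sieved by a combination of additive characters with
majorising properties: with `t_p (m) = (K + 1) 1_{p | m} - x_p (m)`, where `x_p` is the indicator function of the
excluded classes and their negatives, `L = ∑_{d ≤ D} (1 - log d / log D) ∏_{p | d} t_p` and its analogues `L_p`
give `f = L ^ 2 - ∑_p x_p L_p ^ 2 ≤ 0` outside of the sifted set, and the Fourier coefficients of `f`
which are not small are nonnegative, so that their contribution is bounded from below by the main term, however sparse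
`A` is. The larger primes are treated by the linear sieve with the weights of Richert, with the level `N ^ (24 / 25)`:
the mean free parts of their indicator functions, multiplied by `L ^ 2` or `L_p ^ 2`, are dominated
by functions with nonnegative coefficients, whose pair sums are bounded by the large sieve; the loss by the
sparsity of `A` is compensated by the gain from the size of these primes.
-/

set_option autoImplicit false

namespace Pool.Agent.Results.MP_4d57ea_nt.DifferencesOfSparseSets

open Finset Filter Polynomial

/-- `n` is positive and has at most `r` prime factors, counted with multiplicity, all at least `y`. -/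
def AlmostPrime (r : ℕ) (y : ℝ) (n : ℕ) : Prop :=
  0 < n ∧ n.primeFactorsList.length ≤ r ∧ ∀ p : ℕ, p.Prime → p ∣ n → y ≤ p

/-- For each prime `p ≤ y` the set `Y p` has at most `h` elements and does not contain `0`. -/
def Classes (h : ℕ) (y : ℝ) (Y : ℕ → Finset ℕ) : Prop :=
  ∀ p : ℕ, p.Prime → (p : ℝ) ≤ y → (Y p).card ≤ h ∧ 0 ∉ Y p

/-- `m` is modulo no prime `p ≤ y` congruent to an element of `Y p` (the elements of `Y p` are less than `p`). -/
def Avoids (y : ℝ) (Y : ℕ → Finset ℕ) (m : ℕ) : Prop :=
  ∀ p : ℕ, p.Prime → (p : ℝ) ≤ y → m % p ∉ Y p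

open Classical in
/-- The number of pairs of elements `b < a` of `A` for which `a - b` avoids the classes of `Y` modulo the primes up
to `y`, and `|(a - b) ^ 3 + k| = |k| n`, where `n` has at most four prime factors, counted with multiplicity, all at
least `z`. -/
noncomputable def pairCount (k : ℤ) (Y : ℕ → Finset ℕ) (y z : ℝ) (A : Finset ℕ) : ℕ :=
  ((A ×ˢ A).filter (fun w : ℕ × ℕ => w.2 < w.1 ∧ Avoids y Y (w.1 - w.2) ∧
    ∃ n : ℕ, (((w.1 : ℤ) - w.2) ^ 3 + k).natAbs = k.natAbs * n ∧ AlmostPrime 4 z n)).card

theorem irr (k : ℤ) (hk : ∀ a : ℤ, k ≠ a ^ 3) : Irreducible (X ^ 3 + C k : ℤ[X]) := by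
  have hm : (X ^ 3 + C k : ℤ[X]).Monic := monic_X_pow_add_C k (by norm_num)
  have hd : (X ^ 3 + C k : ℤ[X]).natDegree = 3 := natDegree_X_pow_add_C
  rw [Monic.irreducible_iff_roots_eq_zero_of_degree_le_three hm (by omega) (by omega)]
  rw [Multiset.eq_zero_iff_forall_notMem]
  intro x hx
  rw [mem_roots hm.ne_zero, IsRoot.def, eval_add, eval_pow, eval_X, eval_C] at hx
  apply hk (-x)
  have : (-x) ^ 3 = -x ^ 3 := by ring
  rw [this]
  linarith

theorem ev0 (k : ℤ) : (X ^ 3 + C k : ℤ[X]).eval 0 = k := by simp

/-- **Almost prime values of `m ^ 3 + k` at the differences of a sparse set.** Let `k` be an integer which is not a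
cube, `h` a natural number and `δ > 0`. There is `c > 0` such that for all sufficiently large `N`, for any sets `Y p` of
at most `h` nonzero residue classes modulo the primes `p ≤ N ^ c`, every set `A` of integers in `[1, N]` with at least
`N ^ (1 - c)` elements has at least `N ^ (2 - δ)` pairs of elements `b < a` for which `a - b` lies in none of the
classes and `|(a - b) ^ 3 + k| = |k| n`, where `n` has at most four prime factors, counted with multiplicity, all at
least `N ^ (6 / 25)`. -/
theorem result (k : ℤ) (hk : ∀ a : ℤ, k ≠ a ^ 3) (h : ℕ) (δ : ℝ) (hδ : 0 < δ) :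
    ∃ c : ℝ, 0 < c ∧ ∀ᶠ N : ℕ in atTop, ∀ (Y : ℕ → Finset ℕ) (A : Finset ℕ), Classes h ((N : ℝ) ^ c) Y →
      A ⊆ Icc 1 N → (N : ℝ) ^ (1 - c) ≤ (A.card : ℝ) →
      (N : ℝ) ^ (2 - δ) ≤ (pairCount k Y ((N : ℝ) ^ c) ((N : ℝ) ^ (6 / 25 : ℝ)) A : ℝ) := by
  classical
  have hd : (X ^ 3 + C k : ℤ[X]).natDegree = 3 := natDegree_X_pow_add_C
  have hk0 : k ≠ 0 := by
    intro h
    exact hk 0 (by rw [h]; norm_num)
  obtain ⟨c, R, hc, hcδ, H⟩ := Pool.Agent.H540.PS.polyG (X ^ 3 + C k) (irr k hk) (by rw [hd]; norm_num)
    (by rw [ev0]; exact hk0) 4 h 0 (fun _ => 1) (fun i hi => by omega) (by rw [hd]; norm_num) δ hδ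
  refine ⟨c, hc, ?_⟩
  filter_upwards [H, (Pool.Agent.H540.PS.tpow (show (0 : ℝ) < 6 / 25 by norm_num)).eventually_ge_atTop 3] with
    N hN k1 Y A hY hA hAc
  refine (hN Y A hY hA hAc).trans ?_
  unfold pairCount
  refine Nat.cast_le.2 (card_le_card ?_)
  intro w hw
  rw [mem_filter] at hw ⊢
  obtain ⟨hwA, hlt, hav, ⟨n, h1, h2, h3⟩, _⟩ := hw
  refine ⟨hwA, hlt, hav, n, ?_, ?_, h2, h3⟩
  · rw [ev0] at h1
    rw [← h1]
    congr 1
    simp only [eval_add, eval_pow, eval_X, eval_C]
  · rcases Nat.eq_zero_or_pos n with h4 | h4
    · have h5 := h3 2 Nat.prime_two (by rw [h4]; exact dvd_zero 2)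
      exfalso
      push_cast at h5
      linarith
    · exact h4

end Pool.Agent.Results.MP_4d57ea_nt.DifferencesOfSparseSets
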