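import Pool.Agent.H561.PG.R2

set_option autoImplicit false

/-! Primes `|m ^ 3 + k|` with `m` small relative to `k`, for almost every `k`. -/

namespace Pool.Agent.Results.MP_4d57ea_nt.SmallArgumentsAlmostAll

open Finset

/-- the number of the residues `m` modulo `p` with `m ^ 3 + k = 0` -/
noncomputable def nu (k : ℤ) (p : ℕ) : ℕ := ((range p).filter (fun m : ℕ => (p : ℤ) ∣ (m : ℤ) ^ 3 + k)).card

/-- the product of `(p - ν(p)) / (p - 1)` over the primes up to `(log |k|) ^ E` -/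
noncomputable def series (E : ℕ) (k : ℤ) : ℝ :=
  ∏ p ∈ (Icc 1 ⌊Real.log k.natAbs ^ E⌋₊).filter Nat.Prime, ((p : ℝ) - nu k p) / (p - 1)

/-- the number of the integers `m` of `(u, v]` for which `|m ^ 3 + k|` is prime -/
noncomputable def count (k : ℤ) (u v : ℝ) : ℕ :=
  ((Ioc ⌊u⌋₊ ⌊v⌋₊).filter (fun m : ℕ => ((m : ℤ) ^ 3 + k).natAbs.Prime)).card

/-- the formula for the windows `(u, v]` with `|k| ^ (1 / 12 + δ) ≤ v`, `v ^ 3 (log |k|) ^ B ≤ |k|`,
`v - u ≥ v / (log |k|) ^ W`, up to a relative error `ε` -/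
def Holds (δ ε : ℝ) (W B E : ℕ) (k : ℤ) : Prop :=
  ∀ u v : ℝ, 0 ≤ u → (k.natAbs : ℝ) ^ (1 / 12 + δ : ℝ) ≤ v → v ^ 3 * Real.log k.natAbs ^ B ≤ k.natAbs →
    v / Real.log k.natAbs ^ W ≤ v - u →
    |(count k u v : ℝ) - series E k * (v - u) / Real.log k.natAbs| ≤ ε * (series E k * (v - u) / Real.log k.natAbs)

/-- the number of the small `k` is negligible -/
lemma small_ev (A : ℕ) : ∃ X₀ : ℕ, ∀ X : ℕ, X₀ ≤ X → (X : ℝ) / Real.log X ^ (A + 1) + 8 ≤ X / Real.log X ^ A := by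
  obtain ⟨n1, h1⟩ := Pool.Agent.H373R2.T7.ev_L' 2
  obtain ⟨n2, h2⟩ := Pool.Agent.H373R2.T7.ev_log' A 1
  refine ⟨n1 + n2 + 256, fun X hX => ?_⟩
  have k1 := h1 X (by omega)
  have k2 := h2 X (by omega)
  rw [one_mul] at k2
  have hX0 : (256 : ℝ) ≤ X := by exact_mod_cast (by omega : 256 ≤ X)
  obtain ⟨L, hL⟩ : ∃ L, L = Real.log (X : ℝ) := ⟨_, rfl⟩
  rw [← hL] at k1 k2 ⊢
  have hL0 : 0 < L := by linarith
  have e1 : (X : ℝ) / L ^ (A + 1) ≤ (X / L ^ A) / 2 := by
    rw [pow_succ, ← div_div]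
    apply div_le_div_of_nonneg_left (by positivity) (by norm_num) k1
  have e2 : 16 ≤ (X : ℝ) / L ^ A := by
    rw [le_div_iff₀ (by positivity)]
    have e3 : √(X : ℝ) * √(X : ℝ) = X := Real.mul_self_sqrt (by linarith)
    have e4 : 16 ≤ √(X : ℝ) := by
      apply Real.le_sqrt_of_sq_le
      linarith
    calc 16 * L ^ A ≤ √(X : ℝ) * √(X : ℝ) := mul_le_mul e4 k2 (by positivity) (by linarith)
      _ = X := e3
  linarith

open Classical in
/-- one sign -/
theorem one_sign (σ : ℤ) (hσ : σ = 1 ∨ σ = -1) (W A : ℕ) (δ ε : ℝ) (hδ : 0 < δ) (hε : 0 < ε) :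
    ∃ E₀ B : ℕ, ∀ B' : ℕ, B ≤ B' → ∀ E : ℕ, E₀ ≤ E → ∃ X₀ : ℕ, ∀ X : ℕ, X₀ ≤ X →
    (((Icc 1 X).filter (fun N : ℕ => ¬ Holds δ ε W B' E (σ * N))).card : ℝ) ≤ X / Real.log X ^ A := by
  obtain ⟨G, hG⟩ : ∃ G : Polynomial ℤ, G = Polynomial.X ^ 3 := ⟨_, rfl⟩
  have hGv : ∀ n : ℕ, Pool.Agent.H561.PG.gv G n = (n : ℤ) ^ 3 := by
    intro n
    unfold Pool.Agent.H561.PG.gv
    rw [hG]
    simp
  have hdeg : G.natDegree ≤ 3 := by rw [hG, Polynomial.natDegree_X_pow]
  have hlead : 0 < G.coeff 3 := by rw [hG, Polynomial.coeff_X_pow]; norm_num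
  obtain ⟨E₀, B, h⟩ := Pool.Agent.H561.PG.gen_all false G 3 (by norm_num) hdeg hlead σ hσ W (A + 1)
    (min δ (1 / 8)) (min ε 1) (by positivity) (min_le_right _ _) (by positivity) (min_le_right _ _)
  refine ⟨E₀, B + 2, fun B' hB' E hE => ?_⟩
  obtain ⟨X0, h0⟩ := h E hE
  obtain ⟨X1, h1⟩ := small_ev A
  refine ⟨X0 + X1, fun X hX => ?_⟩
  refine le_trans ?_ (h1 X (by omega))
  have k0 := h0 X (by omega)
  have hσ2 : σ * σ = 1 := by rcases hσ with h | h <;> rw [h] <;> norm_num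
  have hgv : ∀ N n : ℕ, Pool.Agent.H561.PG.gv (Pool.Agent.H561.PG.GF σ G N) n = σ * ((n : ℤ) ^ 3 + σ * N) := by
    intro N n
    rw [Pool.Agent.H561.PG.gv_GF, hGv, mul_add, ← mul_assoc, hσ2, one_mul]
    ring
  have hdv : ∀ (N n p : ℕ), Pool.Agent.H561.PG.QP (Pool.Agent.H561.PG.GF σ G N) p n ↔ (p : ℤ) ∣ (n : ℤ) ^ 3 + σ * N := by
    intro N n p
    unfold Pool.Agent.H561.PG.QP
    rw [hgv]
    rcases hσ with h | h
    · rw [h, one_mul]
    · rw [h, neg_one_mul, dvd_neg]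
  have hsub : (Icc 1 X).filter (fun N : ℕ => ¬ Holds δ ε W B' E (σ * N)) ⊆
      ((Icc 1 X).filter (fun N : ℕ => Pool.Agent.H561.PG.LSG false σ G N ∧
        ¬ Pool.Agent.H561.PG.HoldN false σ G 3 (min δ (1 / 8)) (min ε 1) W B E N)) ∪ Icc 1 8 := by
    intro N hN
    rw [mem_filter, mem_Icc] at hN
    rw [mem_union, mem_filter, mem_Icc, mem_Icc]
    obtain ⟨⟨hN1, hNX⟩, hn⟩ := hN
    by_cases hN8 : N ≤ 8
    · exact Or.inr ⟨hN1, hN8⟩
    left
    refine ⟨⟨hN1, hNX⟩, ?_, ?_⟩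
    · intro p hp
      by_cases h2 : (p : ℤ) ∣ (0 : ℤ) ^ 3 + σ * N
      · apply Pool.Agent.H561.PG.loc_false_lt _ (Pool.Agent.H561.PG.QP_per _) p hp 1
        rw [hdv]
        intro h3
        have h4 := dvd_sub h3 h2
        have e : ((1 : ℕ) : ℤ) ^ 3 + σ * N - ((0 : ℤ) ^ 3 + σ * N) = 1 := by push_cast; ring
        rw [e] at h4
        have h5 : p ∣ 1 := by exact_mod_cast h4
        exact hp.one_lt.ne' (Nat.dvd_one.1 h5)
      · apply Pool.Agent.H561.PG.loc_false_lt _ (Pool.Agent.H561.PG.QP_per _) p hp 0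
        rw [hdv]
        exact_mod_cast h2
    · intro hh
      apply hn
      intro u v hu hv hvB hvu
      have habs : (σ * (N : ℤ)).natAbs = N := by
        rw [Int.natAbs_mul]
        rcases hσ with h | h <;> rw [h] <;> simp
      rw [habs] at hv hvB hvu ⊢
      have hN1r : (1 : ℝ) ≤ N := by exact_mod_cast hN1
      have hl2 : 2 ≤ Real.log (N : ℝ) := by
        have h9 : (8 : ℝ) ≤ N := by exact_mod_cast (by omega : 8 ≤ N)
        have h10 : Real.log 8 ≤ Real.log (N : ℝ) := Real.log_le_log (by norm_num) h9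
        have h11 : Real.log 8 = 3 * Real.log 2 := by
          rw [show (8 : ℝ) = 2 ^ 3 by norm_num, Real.log_pow]
          norm_num
        have := Real.log_two_gt_d9
        linarith
      have hl0 : 0 ≤ Real.log (N : ℝ) := by linarith
      have hl1 : 1 ≤ Real.log (N : ℝ) := by linarith
      have hv' : (N : ℝ) ^ (1 / (4 * ((3 : ℕ) : ℝ)) + min δ (1 / 8) : ℝ) ≤ v := by
        refine le_trans ?_ hv
        apply Real.rpow_le_rpow_of_exponent_le hN1r
        have := min_le_left δ (1 / 8)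
        push_cast
        norm_num
      have hv1 : 1 ≤ v := (Real.one_le_rpow hN1r (by positivity)).trans hv'
      have hv0 : 0 < v := by linarith
      have hvB' : v ^ 3 * Real.log N ^ B ≤ N := by
        refine le_trans ?_ hvB
        apply mul_le_mul_of_nonneg_left _ (by positivity)
        exact pow_le_pow_right₀ hl1 (by omega)
      have h2v : v ^ 3 * 2 ≤ N := by
        refine le_trans ?_ hvB
        apply mul_le_mul_of_nonneg_left _ (by positivity)
        exact hl2.trans (le_self_pow₀ hl1 (by omega))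
      have g := hh u v hu hv' hvB' hvu
      have e1 : Pool.Agent.H561.PG.lb false v = 1 := by simp [Pool.Agent.H561.PG.lb]
      have e2 : (Pool.Agent.H561.PG.PT false (Pool.Agent.H561.PG.fG σ G N) ⌊u⌋₊ ⌊v⌋₊).card = count (σ * N) u v := by
        unfold Pool.Agent.H561.PG.PT count
        congr 1
        apply filter_congr
        intro n hn
        rw [mem_Ioc] at hn
        have hnv : (n : ℝ) ≤ v := (Nat.le_floor_iff hv0.le).1 hn.2
        have hn3 : (n : ℝ) ^ 3 * 2 ≤ N := by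
          refine le_trans ?_ h2v
          apply mul_le_mul_of_nonneg_right _ (by norm_num)
          exact pow_le_pow_left₀ (Nat.cast_nonneg _) hnv 3
        have hn3' : (n : ℤ) ^ 3 * 2 ≤ N := by exact_mod_cast hn3
        have hn30 : (0 : ℤ) ≤ (n : ℤ) ^ 3 := by positivity
        have hNpos : (0 : ℤ) < N := by exact_mod_cast hN1
        have e3 : (Pool.Agent.H561.PG.gv (Pool.Agent.H561.PG.GF σ G N) n).toNat = ((n : ℤ) ^ 3 + σ * N).natAbs := by
          rw [hgv]
          rcases hσ with h | h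
          · rw [h]
            omega
          · rw [h]
            omega
        unfold Pool.Agent.H561.PG.fG
        rw [e3]
        simp
      have e3 : Pool.Agent.H561.PG.St false ⌊Real.log N ^ E⌋₊ (Pool.Agent.H561.PG.QP (Pool.Agent.H561.PG.GF σ G N)) =
          series E (σ * N) := by
        rw [Pool.Agent.H561.PG.St_prod]
        unfold series Pool.Agent.H373R2.T7.pz
        rw [habs]
        apply prod_congr rfl
        intro p hp
        rw [mem_filter] at hp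
        rw [Pool.Agent.H561.PG.fac_false _ p hp.2]
        have e5 : Pool.Agent.H373R2.T7.nuB (Pool.Agent.H561.PG.QP (Pool.Agent.H561.PG.GF σ G N)) p = nu (σ * N) p := by
          unfold Pool.Agent.H373R2.T7.nuB nu
          congr 1
          ext r
          simp only [mem_filter, hdv]
        rw [e5]
      rw [e1, e2, e3, one_mul] at g
      refine g.trans ?_
      have hvu0 : 0 ≤ v - u := (div_nonneg (by linarith) (pow_nonneg hl0 W)).trans hvu
      have hs0 : 0 ≤ series E (σ * N) := by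
        rw [← e3]
        exact (Pool.Agent.H561.PG.St_mem _ _ _).1
      exact mul_le_mul_of_nonneg_right (min_le_left _ _) (div_nonneg (mul_nonneg hs0 hvu0) hl0)
  have hc : (((Icc 1 X).filter (fun N : ℕ => ¬ Holds δ ε W B' E (σ * N))).card : ℝ) ≤
      (((Icc 1 X).filter (fun N : ℕ => Pool.Agent.H561.PG.LSG false σ G N ∧
        ¬ Pool.Agent.H561.PG.HoldN false σ G 3 (min δ (1 / 8)) (min ε 1) W B E N)).card : ℝ) + 8 := by
    have := (card_le_card hsub).trans (card_union_le _ _)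
    rw [Nat.card_Icc] at this
    exact_mod_cast this
  linarith

open Classical in
/-- for all but `O(X / (log X) ^ A)` of the nonzero integers `k` with `|k| ≤ X` the number of the `m` of each window for
which `|m ^ 3 + k|` is prime is as predicted -/
theorem result (W A : ℕ) (δ ε : ℝ) (hδ : 0 < δ) (hε : 0 < ε) :
    ∃ E₀ B : ℕ, ∀ E : ℕ, E₀ ≤ E → ∃ X₀ : ℕ, ∀ X : ℕ, X₀ ≤ X →
    (((Icc (-(X : ℤ)) X).filter (fun k : ℤ => k ≠ 0 ∧ ¬ Holds δ ε W B E k)).card : ℝ) ≤ X / Real.log X ^ A := by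
  obtain ⟨E1, B1, h1⟩ := one_sign 1 (Or.inl rfl) W (A + 1) δ ε hδ hε
  obtain ⟨E2, B2, h2⟩ := one_sign (-1) (Or.inr rfl) W (A + 1) δ ε hδ hε
  refine ⟨E1 + E2, B1 + B2, fun E hE => ?_⟩
  obtain ⟨n1, g1⟩ := h1 (B1 + B2) (by omega) E (by omega)
  obtain ⟨n2, g2⟩ := h2 (B1 + B2) (by omega) E (by omega)
  obtain ⟨n3, h3⟩ := Pool.Agent.H373R2.T7.ev_L' 2
  refine ⟨n1 + n2 + n3 + 3, fun X hX => ?_⟩
  have k1 := g1 X (by omega)
  have k2 := g2 X (by omega)
  have k3 := h3 X (by omega)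
  have hX0 : (0 : ℝ) < X := by exact_mod_cast (by omega : 0 < X)
  obtain ⟨F1, hF1⟩ : ∃ F1, F1 = (Icc 1 X).filter (fun m : ℕ => ¬ Holds δ ε W (B1 + B2) E (1 * m)) := ⟨_, rfl⟩
  obtain ⟨F2, hF2⟩ : ∃ F2, F2 = (Icc 1 X).filter (fun m : ℕ => ¬ Holds δ ε W (B1 + B2) E (-1 * m)) := ⟨_, rfl⟩
  rw [← hF1] at k1
  rw [← hF2] at k2
  have hsub : (Icc (-(X : ℤ)) X).filter (fun c : ℤ => c ≠ 0 ∧ ¬ Holds δ ε W (B1 + B2) E c) ⊆
      F1.image (fun m : ℕ => (m : ℤ)) ∪ F2.image (fun m : ℕ => -(m : ℤ)) := by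
    intro c hc
    rw [mem_filter, mem_Icc] at hc
    obtain ⟨⟨g1, g2⟩, g3, g6⟩ := hc
    rw [mem_union, mem_image, mem_image]
    rcases lt_or_gt_of_ne g3 with h | h
    · right
      refine ⟨c.natAbs, ?_, by omega⟩
      have e : (-1 : ℤ) * ((c.natAbs : ℕ) : ℤ) = c := by omega
      rw [hF2, mem_filter, mem_Icc, e]
      exact ⟨⟨by omega, by omega⟩, g6⟩
    · left
      refine ⟨c.natAbs, ?_, by omega⟩
      have e : (1 : ℤ) * ((c.natAbs : ℕ) : ℤ) = c := by omega
      rw [hF1, mem_filter, mem_Icc, e]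
      exact ⟨⟨by omega, by omega⟩, g6⟩
  have hcard : (((Icc (-(X : ℤ)) X).filter (fun c : ℤ => c ≠ 0 ∧ ¬ Holds δ ε W (B1 + B2) E c)).card : ℝ) ≤ F1.card + F2.card := by
    exact_mod_cast (card_le_card hsub).trans ((card_union_le _ _).trans (add_le_add card_image_le card_image_le))
  refine hcard.trans ?_
  have hLA : 0 < Real.log (X : ℝ) ^ A := pow_pos (by linarith) A
  calc (F1.card : ℝ) + F2.card ≤ X / Real.log X ^ (A + 1) + X / Real.log X ^ (A + 1) := add_le_add k1 k2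
    _ = (2 / Real.log X) * (X / Real.log X ^ A) := by
        rw [pow_succ]
        field_simp
        ring
    _ ≤ 1 * (X / Real.log X ^ A) := by
        apply mul_le_mul_of_nonneg_right _ (by positivity)
        rw [div_le_one (by linarith)]
        exact k3
    _ = _ := one_mul _

end Pool.Agent.Results.MP_4d57ea_nt.SmallArgumentsAlmostAll
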