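import Pool.Agent.H540.DS.Sums3

/-!
# Almost prime values of `m ^ 3 + k` at the sums of the elements of two dense sets

Let `k` be an integer which is not a cube, let `A` and `B` be sets of integers in `[1, N]` and
`D = N / √(|A| |B|)`. If `D ≤ (log N) ^ (1 - ε)` and `N` is large, then at least `c |A| |B| log (2 D) / log N` of
the pairs `(a, b)` satisfy `|(a + b) ^ 3 + k| = u n`, where `u` is bounded by `exp (C (log (2 D)) ^ 2)` and `n` has
at most four prime factors, counted with multiplicity, all of which are at least `N ^ (6 / 25)`. If both sets have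
positive density then `u` is bounded and the number of the pairs has the order of magnitude `N ^ 2 / log N`, the
largest possible one. A factor `u` is necessary: all sums may lie in a residue class on which `m ^ 3 + k` has a fixed
divisor. Since only the product of the cardinalities matters, one of the sets may be thinner; for instance `B` may be
the set of the primes up to `N`, or a set of primes of positive relative density, if `A` has at least
`N / (log N) ^ (1 - 3 ε)` elements.

Method: the sieve for the pairs starts with the primes larger than a constant times `D`, as for the differences (see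
`DifferencesOfDenseSets`). The product `u` of the prime powers of the smaller primes is not fixed but bounded for most
pairs: the number of pairs for which it is large is estimated by the large sieve inequality and by Rankin's method;
this needs the bound for the number of roots of an irreducible polynomial modulo prime powers. The pairs are then
divided into the pairs of classes modulo a power of the product of the small primes; in each of them `u` is constant.
-/

set_option autoImplicit false

namespace Pool.Agent.Results.MP_4d57ea_nt.SumsOfDenseSets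

open Finset Filter Polynomial

/-- `n` has at most four prime factors, counted with multiplicity, and all of them are at least `y`. -/
def AlmostPrime (y : ℝ) (n : ℕ) : Prop :=
  n.primeFactorsList.length ≤ 4 ∧ ∀ p : ℕ, p.Prime → p ∣ n → y ≤ p

theorem irr (k : ℤ) (hk : ∀ a : ℤ, k ≠ a ^ 3) : Irreducible (X ^ 3 + C k : ℤ[X]) := by
  have hm : (X ^ 3 + C k : ℤ[X]).Monic := monic_X_pow_add_C k (by norm_num)
  have hd : (X ^ 3 + C k : ℤ[X]).natDegree = 3 := natDegree_X_pow_add_C
  rw [Monic.irreducible_iff_roots_eq_zero_of_degree_le_three hm (by omega) (by omega)]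
  rw [Multiset.eq_zero_iff_forall_notMem]
  intro x hx
  rw [mem_roots hm.ne_zero, IsRoot.def, eval_add, eval_pow, eval_X, eval_C] at hx
  apply hk (-x)
  have : (-x) ^ 3 = -x ^ 3 := by ring
  rw [this]
  linarith

open Classical in
/-- **Almost prime values of `m ^ 3 + k` at the sums of two dense sets.** Let `k` be an integer which is not a cube
and `0 < ε ≤ 1`. There are `c, C > 0` such that for all sufficiently large `N` and all sets `A`, `B` of integers in
`[1, N]` with `√(|A| |B|) ≥ N / (log N) ^ (1 - ε)`, at least `c |A| |B| log (2 N / √(|A| |B|)) / log N` of the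
pairs `(a, b)` in `A × B` satisfy `|(a + b) ^ 3 + k| = u n`, where `u ≤ exp (C (log (2 N / √(|A| |B|))) ^ 2)` and
`n` has at most four prime factors, counted with multiplicity, all at least `N ^ (6 / 25)`. -/
theorem result (k : ℤ) (hk : ∀ a : ℤ, k ≠ a ^ 3) (ε : ℝ) (hε : 0 < ε) (hε1 : ε ≤ 1) :
    ∃ c C : ℝ, 0 < c ∧ 0 < C ∧ ∀ᶠ N : ℕ in atTop,
    ∀ A B : Finset ℕ, A ⊆ Icc 1 N → B ⊆ Icc 1 N →
      (N : ℝ) / Real.log N ^ (1 - ε) ≤ √((A.card : ℝ) * B.card) →
      c * ((A.card : ℝ) * B.card) * (Real.log (2 * N / √((A.card : ℝ) * B.card)) / Real.log N) ≤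
        (((A ×ˢ B).filter (fun z : ℕ × ℕ => ∃ u n : ℕ, (((z.1 : ℤ) + z.2) ^ 3 + k).natAbs = u * n ∧
          (u : ℝ) ≤ Real.exp (C * Real.log (2 * N / √((A.card : ℝ) * B.card)) ^ 2) ∧
          AlmostPrime ((N : ℝ) ^ (6 / 25 : ℝ)) n)).card : ℝ) := by
  have hd : (X ^ 3 + Polynomial.C k : ℤ[X]).natDegree = 3 := natDegree_X_pow_add_C
  obtain ⟨c, C, hc, hC, h⟩ := Pool.Agent.H540.DS.sums (X ^ 3 + Polynomial.C k) (irr k hk)
    (by rw [hd]; norm_num) 4 (by rw [hd]; norm_num) ε hε hε1
  refine ⟨c, C, hc, hC, ?_⟩
  filter_upwards [h] with N hN A B hA hB hAB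
  refine (hN A B hA hB hAB).trans ?_
  apply Nat.cast_le.2
  apply card_le_card
  intro z hz
  rw [mem_filter] at hz ⊢
  refine ⟨hz.1, ?_⟩
  obtain ⟨u, n, h1, h2, h3, h4⟩ := hz.2
  refine ⟨u, n, ?_, h2, h3, h4⟩
  rw [← h1]
  congr 1
  simp only [eval_add, eval_pow, eval_X, eval_C]
  push_cast
  rfl

end Pool.Agent.Results.MP_4d57ea_nt.SumsOfDenseSets
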